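import Mathlib
import Pool.Agent.Helper12.BX.Play0

/-!
# The end of the fusion: bookkeeping and assembly
-/

set_option autoImplicit false

namespace Pool.Agent.Helper12.BX

open Relation

/-! ### The first condition -/

/-- The function of the first condition. -/
def p00 : PF := fun d =>
  if d = 1 then some (mkv 0 5 5 9 0) else if d % 4 = 3 then some (mkv d 0 (d + 2) 0 0) else none

/-- The monitor of the first condition. -/
def nu0 : Mon where
  S := fun _ => ∅
  b := fun j => bd (4 * j + 3 + j)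
  f := fun j => 4 * j + 3
  mono := fun a b hab => by dsimp only; omega
  bound := fun _ => le_rfl

theorem p00_one : p00 1 = some (mkv 0 5 5 9 0) := by simp [p00]

theorem p00_none {d : ℕ} (h1 : d ≠ 1) (h3 : d % 4 ≠ 3) : p00 d = none := by
  unfold p00; rw [if_neg h1, if_neg h3]

theorem p00_three {d : ℕ} (h3 : d % 4 = 3) : p00 d = some (mkv d 0 (d + 2) 0 0) := by
  unfold p00; rw [if_neg (by omega), if_pos h3]

theorem p00_odd {d v : ℕ} (h : p00 d = some v) : ¬ Even d := by
  by_cases h1 : d = 1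
  · rw [h1]; decide
  · by_cases h3 : d % 4 = 3
    · rw [Nat.even_iff]; omega
    · rw [p00_none h1 h3] at h; cases h

theorem ok_nu0 : Ok nu0 p00 {d | d % 4 = 1 ∧ 13 ≤ d} := by
  intro N
  refine ⟨N + 2, by omega, fun d hd => absurd hd (Finset.notMem_empty d), 4 * (N + 2) + 5,
    ⟨by omega, by omega⟩, Finset.notMem_empty _, TransGen.single ?_, p00_none (by omega) (by omega)⟩
  refine ⟨mkv (4 * (N + 2) + 3) 0 (4 * (N + 2) + 3 + 2) 0 0, ?_, ?_, ?_, ?_⟩
  · exact p00_three (d := 4 * (N + 2) + 3) (by omega)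
  · rw [dD_mkv]
  · show 4 * (N + 2) + 3 < _
    omega
  · rw [dK_mkv]; omega

/-- The first condition. -/
def c00 : Cond where
  p := p00
  h := fun _ => 0
  A := {d | d % 4 = 1 ∧ 13 ≤ d}
  M := {nu0}
  a := 5
  r := 9
  ρ := 9
  τ := 0
  dis := fun d hd => by
    obtain ⟨h1, h2⟩ := hd
    exact p00_none (by omega) (by omega)
  pa := p00_none (by omega) (by omega)
  aA := fun h => by
    have h2 : 13 ≤ 5 := h.2
    omega
  pρ := p00_none (by omega) (by omega)
  ρA := fun h => by
    have h2 : 13 ≤ 9 := h.2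
    omega
  ne := by omega
  reg := ReflTransGen.refl
  cnt := Set.countable_singleton _
  nem := Set.singleton_nonempty _
  ok := fun m hm => by
    rw [Set.mem_singleton_iff] at hm
    rw [hm]
    exact ok_nu0

theorem P00_one : P p00 1 = (5, 1) := by
  rw [P_succ, P_zero, stp_some (v := mkv 0 5 5 9 0) p00_one]
  unfold nxt
  rw [dK_mkv, if_pos rfl, dC_mkv]

theorem stage00 : Stage 0 {0} c00 1 where
  p_odd := fun _ _ h => p00_odd h
  A_odd := fun d hd => ⟨by have := hd.1; rw [Nat.even_iff]; omega, Nat.zero_le d⟩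
  ρ_odd := ⟨by show ¬ Even 9; decide, Nat.zero_le _⟩
  a_odd := ⟨by show ¬ Even 5; decide, Nat.zero_le _⟩
  pos := Nat.one_pos
  inc := by
    intro k hk
    obtain rfl : k = 0 := by omega
    show (P p00 0).1 < (P p00 1).1
    rw [P00_one, P_zero]
    omega
  Pn := by show (P p00 1).1 = 5; rw [P00_one]
  st := Nat.zero_le _
  root := ⟨mkv 0 5 5 9 0, p00_one, dT_mkv _ _ _ _ _⟩
  S := by
    intro d hd
    rw [Finset.mem_singleton] at hd
    subst hd
    refine ⟨p00_none (d := 0) (by omega) (by omega), fun h => ?_, ?_, ?_⟩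
    · have h2 : 13 ≤ 0 := h.2
      omega
    · show (0 : ℕ) ≠ 5; omega
    · show (0 : ℕ) ≠ 9; omega

/-! ### Unions of increasing sequences -/

theorem exists_union {p : ℕ → PF} (hp : ∀ i j, i ≤ j → Ext (p i) (p j)) :
    ∃ u : PF, (∀ i, Ext (p i) u) ∧ ∀ d v, u d = some v → ∃ i, p i d = some v := by
  classical
  refine ⟨fun d => if h : ∃ i, p i d ≠ none then p (Nat.find h) d else none, ?_, ?_⟩
  · intro i d v hv
    have h : ∃ i, p i d ≠ none := ⟨i, by rw [hv]; simp⟩
    have h1 : p (Nat.find h) d ≠ none := Nat.find_spec h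
    obtain ⟨w, hw⟩ := Option.ne_none_iff_exists'.1 h1
    have h2 : Nat.find h ≤ i := Nat.find_min' h (by rw [hv]; simp)
    have h3 := hp _ _ h2 d w hw
    simp only [dif_pos h]
    rw [hw, ← h3, hv]
  · intro d v hv
    by_cases h : ∃ i, p i d ≠ none
    · simp only [dif_pos h] at hv
      exact ⟨_, hv⟩
    · simp only [dif_neg h] at hv
      cases hv

/-- The main walk below an index where it is strictly increasing. -/
theorem P_ext {p u : PF} {n : ℕ} (hinc : ∀ k, k < n → (P p k).1 < (P p (k + 1)).1)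
    (hp : Ext p u) {k : ℕ} (hk : k ≤ n) : P u k = P p k := by
  refine wk_ext hp fun j hj => ?_
  intro h1
  have h2 := hinc j (by omega)
  rw [P_succ, stp_none (show p (P p j).1 = none from h1)] at h2
  exact lt_irrefl _ h2

/-! ### The sequence of stages -/

/-- The states of the fusion. -/
structure FSt where
  i : ℕ
  S : Finset ℕ
  c : Cond
  n : ℕ
  stage : Stage i S c n

/-- The result of the bookkeeping. -/
structure FSeq (g : PF → ℕ → ℕ) where
  c : ℕ → Cond
  q : ℕ → Cond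
  n : ℕ → ℕ
  S : ℕ → Finset ℕ
  e : ℕ → ℕ
  b : ℕ → ℕ
  t : ℕ → Mon
  S0 : S 0 = {0}
  Ss : ∀ i, S (i + 1) = insert (e i) (insert (q i).ρ (if Even i then insert i (S i) else S i))
  stage : ∀ i, Stage i (S i) (c i) (n i)
  step : ∀ i, StepOK g i (S i) (c i) (n i) (t i) (q i) (b i) (e i) (c (i + 1))
  n_lt : ∀ i, n i < n (i + 1)
  book : ∀ k, ∀ m ∈ (c k).M, ∀ N, ∃ i, N ≤ i ∧ t i = m

theorem exists_fseq {g : PF → ℕ → ℕ} (hg : FusStep g) : Nonempty (FSeq g) := by
  classical
  obtain ⟨s, t, hs0, ht, hR, _, hbook⟩ := exists_book (α := FSt) (T := Mon)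
    (fun x => x.c.M) (fun x => x.c.cnt) (fun x => x.c.nem)
    (fun _ ν x y => y.i = x.i + 1 ∧ x.n < y.n ∧ ∃ (Q : Cond) (b e : ℕ),
      StepOK g x.i x.S x.c x.n ν Q b e y.c ∧
      y.S = insert e (insert Q.ρ (if Even x.i then insert x.i x.S else x.S)))
    (by
      intro _ x ν hν
      obtain ⟨Q, b, e, c', n', h1, h2, h3⟩ := hg x.i x.S x.c x.n ν x.stage hν
      refine ⟨⟨x.i + 1, _, c', n', h3⟩, ⟨rfl, h2, Q, b, e, h1, rfl⟩, ?_⟩
      show x.c.M ⊆ c'.M
      rw [h1.M]
      exact h1.Qc.M)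
    ⟨0, {0}, c00, 1, stage00⟩
  have hi : ∀ i, (s i).i = i := by
    intro i
    induction i with
    | zero => rw [hs0]
    | succ i ih => rw [(hR i).1, ih]
  have hR2 := fun i => (hR i).2.2
  choose q b e hstep hS using hR2
  refine ⟨⟨fun i => (s i).c, q, fun i => (s i).n, fun i => (s i).S, e, b, t, ?_, ?_, ?_, ?_, ?_, ?_⟩⟩
  · show (s 0).S = {0}
    rw [hs0]
  · intro i
    have h := hS i
    rw [hi i] at h
    exact h
  · intro i
    have h := (s i).stage
    rw [hi i] at h
    exact h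
  · intro i
    have h := hstep i
    rw [hi i] at h
    exact h
  · intro i
    exact (hR i).2.1
  · exact hbook

namespace FSeq

variable {g : PF → ℕ → ℕ} (X : FSeq g)

theorem n_mono : StrictMono X.n := strictMono_nat_of_lt_succ X.n_lt

theorem Qle (i : ℕ) : Le (X.q i) (X.c i) := (X.step i).Qc

theorem ext_succ (i : ℕ) : Ext (X.q i).p (X.c (i + 1)).p := (X.step i).ext

theorem c_ext {i j : ℕ} (hij : i ≤ j) : Ext (X.c i).p (X.c j).p := by
  induction j, hij using Nat.le_induction with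
  | base => exact Ext.refl _
  | succ j _ ih => exact ih.trans ((X.Qle j).ext.trans (X.ext_succ j))

theorem c_A {i j : ℕ} (hij : i ≤ j) : (X.c j).A ⊆ (X.c i).A := by
  induction j, hij using Nat.le_induction with
  | base => exact subset_rfl
  | succ j _ ih => exact ((X.step j).A.trans (X.Qle j).A).trans ih

theorem q_A' {i j : ℕ} (hij : i ≤ j) : (X.q j).A ⊆ (X.q i).A := by
  rcases hij.eq_or_lt with rfl | h
  · exact subset_rfl
  · exact ((X.Qle j).A.trans (X.c_A h)).trans (X.step i).A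

theorem c_h {i j : ℕ} (hij : i ≤ j) (d : ℕ) : (X.c i).h d ≤ (X.c j).h d := by
  induction j, hij using Nat.le_induction with
  | base => exact le_rfl
  | succ j _ ih =>
    rw [(X.step j).h]
    exact ih.trans ((X.Qle j).h d)

theorem q_h' {i j : ℕ} (hij : i ≤ j) (d : ℕ) : (X.q i).h d ≤ (X.q j).h d := by
  rcases hij.eq_or_lt with rfl | h
  · exact le_rfl
  · rw [← (X.step i).h]
    exact (X.c_h h d).trans ((X.Qle j).h d)

theorem q_ext' {i j : ℕ} (hij : i ≤ j) : Ext (X.q i).p (X.q j).p := by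
  rcases hij.eq_or_lt with rfl | h
  · exact Ext.refl _
  · exact ((X.ext_succ i).trans (X.c_ext h)).trans (X.Qle j).ext

/-- The coordinates of all later conditions. -/
theorem c_mem {i j : ℕ} (hij : i < j) (d : ℕ) (hd : d ∈ (X.c j).A ∨ d = (X.c j).a ∨
    d = (X.c j).ρ) : d ∈ (X.q i).A := by
  have key : d ∈ (X.c j).A ∨ d ∈ (X.q (j - 1)).A := by
    rcases hd with h | h | h
    · exact Or.inl h
    · right
      have := (X.step (j - 1)).mem d (Or.inr (Or.inl (by rw [Nat.sub_add_cancel (by omega)]; exact h)))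
      exact this
    · right
      have := (X.step (j - 1)).mem d (Or.inr (Or.inr (by rw [Nat.sub_add_cancel (by omega)]; exact h)))
      exact this
  rcases key with h | h
  · exact (X.step i).A (X.c_A hij h)
  · exact X.q_A' (by omega) h

theorem q_ρ_mem (j : ℕ) : (X.q j).ρ ∈ (X.c j).A ∨ (X.q j).ρ = (X.c j).ρ := (X.Qle j).ρ

theorem new_c {i j : ℕ} (hij : i < j) (d v : ℕ) (h1 : (X.q i).p d = none)
    (h2 : (X.c j).p d = some v) (h3 : d ≠ (X.q i).a) : d ∈ (X.q i).A ∧ (X.q i).h d ≤ v := by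
  induction j, hij using Nat.le_induction generalizing v with
  | base =>
    refine (X.step i).new d v h1 h2 ?_
    rw [← (X.Qle i).a]; exact h3
  | succ j hij ih =>
    rcases h4 : (X.c j).p d with _ | w
    · rcases h5 : (X.q j).p d with _ | w
      · by_cases h6 : d = (X.c j).a
        · refine ⟨X.c_mem hij d (Or.inr (Or.inl h6)), ?_⟩
          have h7 := (X.step j).pa
          rw [← h6, h2] at h7
          obtain rfl : v = X.b j := by simpa using h7
          have h8 := (X.step j).ha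
          rw [← h6] at h8
          exact (X.q_h' (Nat.le_of_lt hij) d).trans h8
        · obtain ⟨h7, h8⟩ := (X.step j).new d v h5 h2 h6
          exact ⟨X.q_A' (Nat.le_of_lt hij) h7, (X.q_h' (Nat.le_of_lt hij) d).trans h8⟩
      · have h6 := (X.ext_succ j) d w h5
        rw [h2] at h6
        obtain rfl : v = w := by simpa using h6
        obtain ⟨h7, h8⟩ := (X.Qle j).new d v h4 h5
        refine ⟨X.c_mem hij d ?_, ?_⟩
        · rcases h7 with h7 | h7
          · exact Or.inl h7
          · exact Or.inr (Or.inr h7)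
        · have h9 := X.c_h (i := i + 1) hij d
          rw [(X.step i).h] at h9
          exact h9.trans h8
    · have h6 := (X.c_ext (Nat.le_succ j)) d w h4
      rw [h2] at h6
      obtain rfl : v = w := by simpa using h6
      exact ih v h4

/-- Coordinates that are missing and not free stay so. -/
theorem stay {i j : ℕ} (hij : i ≤ j) {d : ℕ} (h : (X.c i).p d = none ∧ d ∉ (X.c i).A ∧
    d ≠ (X.c i).a ∧ d ≠ (X.c i).ρ) : (X.c j).p d = none ∧ d ∉ (X.c j).A ∧
    d ≠ (X.c j).a ∧ d ≠ (X.c j).ρ := by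
  induction j, hij using Nat.le_induction with
  | base => exact h
  | succ j _ ih =>
    obtain ⟨h1, h2, h3, h4⟩ := ih
    have hA : d ∉ (X.q j).A := fun h => h2 ((X.Qle j).A h)
    have hq : (X.q j).p d = none := Le.none (X.step j).Qc h1 h2 h4
    refine ⟨?_, fun h => hA ((X.step j).A h), ?_, ?_⟩
    · rcases h5 : (X.c (j + 1)).p d with _ | v
      · rfl
      · exact absurd ((X.step j).new d v hq h5 h3).1 hA
    · intro h
      exact hA ((X.step j).mem d (Or.inr (Or.inl h)))
    · intro h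
      exact hA ((X.step j).mem d (Or.inr (Or.inr h)))

theorem S_eq (i : ℕ) : X.S i = SS X.e (fun i => (X.q i).ρ) i := by
  induction i with
  | zero =>
    rw [X.S0]
    ext d
    rw [mem_SS]
    simp
  | succ i ih =>
    rw [X.Ss, ih]
    ext d
    rw [mem_SS]
    simp only [Finset.mem_insert]
    have hlt : ∀ j, j < i + 1 ↔ j < i ∨ j = i := fun j => by omega
    by_cases hi : Even i
    · rw [if_pos hi, Finset.mem_insert, mem_SS]
      constructor
      · rintro (h | h | h | h | ⟨h1, h2⟩ | ⟨j, h1, h2⟩ | ⟨j, h1, h2⟩)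
        · exact Or.inr (Or.inr (Or.inl ⟨i, by omega, h.symm⟩))
        · exact Or.inr (Or.inr (Or.inr ⟨i, by omega, h.symm⟩))
        · exact Or.inr (Or.inl ⟨by omega, h ▸ hi⟩)
        · exact Or.inl h
        · exact Or.inr (Or.inl ⟨by omega, h2⟩)
        · exact Or.inr (Or.inr (Or.inl ⟨j, by omega, h2⟩))
        · exact Or.inr (Or.inr (Or.inr ⟨j, by omega, h2⟩))
      · rintro (h | ⟨h1, h2⟩ | ⟨j, h1, h2⟩ | ⟨j, h1, h2⟩)
        · exact Or.inr (Or.inr (Or.inr (Or.inl h)))
        · rcases (hlt d).1 h1 with h | h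
          · exact Or.inr (Or.inr (Or.inr (Or.inr (Or.inl ⟨h, h2⟩))))
          · exact Or.inr (Or.inr (Or.inl h))
        · rcases (hlt j).1 h1 with h | h
          · exact Or.inr (Or.inr (Or.inr (Or.inr (Or.inr (Or.inl ⟨j, h, h2⟩)))))
          · subst h; exact Or.inl h2.symm
        · rcases (hlt j).1 h1 with h | h
          · exact Or.inr (Or.inr (Or.inr (Or.inr (Or.inr (Or.inr ⟨j, h, h2⟩)))))
          · subst h; exact Or.inr (Or.inl h2.symm)
    · rw [if_neg hi, mem_SS]
      constructor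
      · rintro (h | h | h | ⟨h1, h2⟩ | ⟨j, h1, h2⟩ | ⟨j, h1, h2⟩)
        · exact Or.inr (Or.inr (Or.inl ⟨i, by omega, h.symm⟩))
        · exact Or.inr (Or.inr (Or.inr ⟨i, by omega, h.symm⟩))
        · exact Or.inl h
        · exact Or.inr (Or.inl ⟨by omega, h2⟩)
        · exact Or.inr (Or.inr (Or.inl ⟨j, by omega, h2⟩))
        · exact Or.inr (Or.inr (Or.inr ⟨j, by omega, h2⟩))
      · rintro (h | ⟨h1, h2⟩ | ⟨j, h1, h2⟩ | ⟨j, h1, h2⟩)
        · exact Or.inr (Or.inr (Or.inl h))
        · rcases (hlt d).1 h1 with h | h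
          · exact Or.inr (Or.inr (Or.inr (Or.inl ⟨h, h2⟩)))
          · exact absurd (h ▸ h2) hi
        · rcases (hlt j).1 h1 with h | h
          · exact Or.inr (Or.inr (Or.inr (Or.inr (Or.inl ⟨j, h, h2⟩))))
          · subst h; exact Or.inl h2.symm
        · rcases (hlt j).1 h1 with h | h
          · exact Or.inr (Or.inr (Or.inr (Or.inr (Or.inr ⟨j, h, h2⟩))))
          · subst h; exact Or.inr (Or.inl h2.symm)

theorem e_S {i j : ℕ} (hij : i < j) : X.e i ∈ X.S j := by
  rw [X.S_eq, mem_SS]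
  exact Or.inr (Or.inr (Or.inl ⟨i, hij, rfl⟩))

theorem ρ_S {i j : ℕ} (hij : i < j) : (X.q i).ρ ∈ X.S j := by
  rw [X.S_eq, mem_SS]
  exact Or.inr (Or.inr (Or.inr ⟨i, hij, rfl⟩))

theorem e_qA (i : ℕ) : X.e i ∈ (X.q i).A := (X.step i).mem _ (Or.inl rfl)

theorem e_cA (i : ℕ) : X.e i ∈ (X.c i).A := (X.Qle i).A (X.e_qA i)

theorem ρ_prop (j : ℕ) (Pr : ℕ → Prop) (h1 : ∀ d ∈ (X.c j).A, Pr d) (h2 : Pr (X.c j).ρ) :
    Pr (X.q j).ρ := by
  rcases X.q_ρ_mem j with h | h
  · exact h1 _ h
  · rw [h]; exact h2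

end FSeq

/-- The end of the fusion. -/
theorem fusEnd : FusEnd := by
  intro g hg
  obtain ⟨X⟩ := exists_fseq hg
  obtain ⟨u, hu1, hu2⟩ := exists_union (p := fun i => (X.c i).p) fun i j hij => X.c_ext hij
  have hu3 : ∀ i d v, u d = some v → ∃ j, i ≤ j ∧ (X.c j).p d = some v := by
    intro i d v h
    obtain ⟨j, hj⟩ := hu2 d v h
    exact ⟨max i j, le_max_left _ _, X.c_ext (le_max_right i j) d v hj⟩
  have hstay : ∀ i d, (X.c i).p d = none → d ∉ (X.c i).A → d ≠ (X.c i).a → d ≠ (X.c i).ρ →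
      u d = none := by
    intro i d h1 h2 h3 h4
    rcases h5 : u d with _ | v
    · rfl
    · obtain ⟨j, hj, hv⟩ := hu3 i d v h5
      rw [(X.stay hj ⟨h1, h2, h3, h4⟩).1] at hv
      cases hv
  have hSnone : ∀ i, ∀ d ∈ X.S i, u d = none := by
    intro i d hd
    obtain ⟨h1, h2, h3, h4⟩ := (X.stage i).S d hd
    exact hstay i d h1 h2 h3 h4
  have hPn : ∀ i k, k ≤ X.n i → P u k = P (X.c i).p k := fun i k hk =>
    P_ext (X.stage i).inc (hu1 i) hk
  have hinc : ∀ k, (P u k).1 < (P u (k + 1)).1 := by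
    intro k
    have h1 : k < X.n (k + 1) := lt_of_lt_of_le (Nat.lt_succ_self k) (X.n_mono.le_apply)
    rw [hPn (k + 1) k h1.le, hPn (k + 1) (k + 1) h1]
    exact (X.stage (k + 1)).inc k h1
  have hPmono : StrictMono fun k => (P u k).1 := strictMono_nat_of_lt_succ hinc
  have ha : ∀ i, (X.q i).a = (P u (X.n i)).1 := by
    intro i
    rw [hPn i _ le_rfl, (X.stage i).Pn, (X.Qle i).a]
  have hamono : StrictMono fun i => (X.q i).a := by
    intro i j hij
    show (X.q i).a < (X.q j).a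
    rw [ha i, ha j]
    exact hPmono (X.n_mono hij)
  have hSS : ∀ i, SS X.e (fun i => (X.q i).ρ) i = X.S i := fun i => (X.S_eq i).symm
  refine ⟨{
    u := u
    q := X.q
    n := X.n
    e := X.e
    b := X.b
    M₀ := ⋃ i, (X.c i).M
    u_even := ?_
    inc := hinc
    n_pos := fun i => (X.stage i).pos
    Pn := ?_
    ua := ?_
    root := ?_
    idx := fun i => (X.step i).idx
    a_mono := hamono
    q_ext_u := fun i => (X.ext_succ i).trans (hu1 (i + 1))
    q_new := ?_
    u_ρ := fun i => hSnone (i + 1) _ (X.ρ_S (Nat.lt_succ_self i))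
    q_ext := fun i j hij => X.q_ext' hij
    q_A := fun i j hij => X.q_A' hij
    q_h := fun i j d hij => X.q_h' hij d
    q_M := ?_
    M₀_cnt := Set.countable_iUnion fun i => (X.c i).cnt
    ρ_ne := ?_
    ρ_ge := fun i => X.ρ_prop i _ (fun d hd => ((X.stage i).A_odd d hd).2) (X.stage i).ρ_odd.2
    ρ_odd := fun i => X.ρ_prop i (fun d => ¬ Even d) (fun d hd => ((X.stage i).A_odd d hd).1)
      (X.stage i).ρ_odd.1
    e_inj := ?_
    e_ge := fun i => ((X.stage i).A_odd _ (X.e_cA i)).2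
    e_odd := fun i => ((X.stage i).A_odd _ (X.e_cA i)).1
    e_mem := fun i j hij => X.q_A' hij (X.e_qA j)
    e_not := ?_
    e_ne := ?_
    u_e := fun i => hSnone (i + 1) _ (X.e_S (Nat.lt_succ_self i))
    big := ?_
    ok := ?_
    okμ := ?_ }⟩
  · intro d hd
    rcases h : u d with _ | v
    · rfl
    · obtain ⟨i, hi⟩ := hu2 d v h
      exact absurd hd ((X.stage i).p_odd d v hi)
  · intro i
    rw [hPn i _ le_rfl, (X.step i).key, (X.Qle i).a]
  · intro i
    have h := (X.step i).pa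
    rw [← (X.Qle i).a] at h
    exact hu1 (i + 1) _ _ h
  · intro i
    obtain ⟨vm, h1, h2⟩ := (X.stage i).root
    refine ⟨vm, ?_, ?_⟩
    · rw [hPn i _ (Nat.sub_le _ _)]
      exact hu1 i _ _ h1
    · rw [h2, (X.Qle i).r]
  · intro i d v h1 h2 h3
    obtain ⟨j, hj, hv⟩ := hu3 (i + 1) d v h2
    exact X.new_c hj d v h1 hv h3
  · intro i
    rw [← (X.step i).M]
    exact Set.subset_iUnion (fun i => (X.c i).M) (i + 1)
  · intro i j hij h
    obtain ⟨_, h2, _, h4⟩ := (X.stage j).S _ (X.ρ_S hij)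
    rcases X.q_ρ_mem j with h5 | h5
    · exact h2 (h ▸ h5)
    · exact h4 (h.trans h5)
  · have key : ∀ i j, i < j → X.e i ≠ X.e j := by
      intro i j hij h
      obtain ⟨_, h2, _, _⟩ := (X.stage j).S _ (X.e_S hij)
      exact h2 (h ▸ X.e_cA j)
    intro i j h
    rcases lt_trichotomy i j with h1 | h1 | h1
    · exact absurd h (key i j h1)
    · exact h1
    · exact absurd h.symm (key j i h1)
  · intro i j hji h
    obtain ⟨_, h2, _, _⟩ := (X.stage i).S _ (X.e_S hji)
    exact h2 ((X.Qle i).A h)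
  · intro j i h
    rcases lt_or_ge i j with hij | hij
    · obtain ⟨_, h2, _, h4⟩ := (X.stage j).S _ (X.e_S hij)
      rcases X.q_ρ_mem j with h5 | h5
      · exact h2 (h ▸ h5)
      · exact h4 (h.trans h5)
    · have h1 := X.q_A' hij (X.e_qA i)
      rw [h] at h1
      exact (X.q j).ρA h1
  · intro i Φ hΦ
    have h := (X.step i).big Φ (by
      intro d v hd
      obtain ⟨h1, h2⟩ := hΦ d v hd
      rw [hSS] at h1
      rw [(X.Qle i).a] at h2
      exact ⟨h1, h2⟩)
    rw [(X.Qle i).a]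
    exact h
  · intro m hm N
    obtain ⟨k, hk⟩ := Set.mem_iUnion.1 hm
    obtain ⟨i, hi, rfl⟩ := X.book k m hk N
    obtain ⟨j, hj, h1, h2, h3, h4⟩ := (X.step i).Dν
    refine ⟨j, hi.trans hj, ?_, X.e i, Set.mem_range_self i, h3,
      transGen_mono h4 hi (hu1 (i + 1)), hSnone (i + 1) _ (X.e_S (Nat.lt_succ_self i))⟩
    intro d hd v hv
    rcases h5 : (X.c (i + 1)).p d with _ | w
    · obtain ⟨h6, h7, h8⟩ := h2 d hd
      rw [hstay (i + 1) d h5 h6 h7 h8] at hv
      cases hv
    · have h6 := hu1 (i + 1) d w h5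
      rw [hv] at h6
      obtain rfl : v = w := by simpa using h6
      exact h1 d hd v h5
  · intro N
    refine ⟨N, le_rfl, ?_, X.e N, Set.mem_range_self N, ?_, ?_,
      hSnone (N + 1) _ (X.e_S (Nat.lt_succ_self N))⟩
    · intro d hd v hv
      change d ∈ SS X.e (fun i => (X.q i).ρ) N at hd
      rw [hSS] at hd
      rw [hSnone N d hd] at hv
      cases hv
    · intro h
      change X.e N ∈ SS X.e (fun i => (X.q i).ρ) N at h
      rw [hSS] at h
      exact ((X.stage N).S _ h).2.1 (X.e_cA N)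
    · show TransGen (Ds N u) (X.q N).a (X.e N)
      rw [(X.Qle N).a]
      exact transGen_mono (X.step N).Dμ le_rfl (hu1 (N + 1))

end Pool.Agent.Helper12.BX
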